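import Pool.Agent.W2helper83.BT.Defs3

/-!
# Project BT (helper83), piece EXCA: up to conjugation finitely many maps with two periodic points,
two-parameter version
-/

set_option autoImplicit false

namespace Pool.Agent.W2helper49.BT3

open Pool.Agent.W2helper83.BT

/-- finitely many solutions of `c ^ m ∈ G` -/
lemma finite_zpow {K : Type} [Field K] {G : Set K} (hG : G.Finite) {m : ℤ} (hm : m ≠ 0) :
    {c : K | c ^ m ∈ G}.Finite := by
  classical
  have hN : 0 < m.natAbs := Int.natAbs_pos.2 hm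
  have key : ((fun c : K => c ^ m.natAbs) ⁻¹' (G ∪ (fun a => a⁻¹) '' G)).Finite := by
    refine (hG.union (hG.image _)).preimage' fun a _ => ?_
    refine (Polynomial.nthRoots m.natAbs a).toFinset.finite_toSet.subset ?_
    intro c hc
    have hc' : c ^ m.natAbs = a := hc
    simp [Polynomial.mem_nthRoots hN, hc']
  refine key.subset ?_
  intro c hc
  have hc' : c ^ m ∈ G := hc
  rcases Int.natAbs_eq m with h | h
  · left
    rw [h, zpow_natCast] at hc'
    exact hc'
  · right
    rw [h, zpow_neg, zpow_natCast] at hc'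
    exact ⟨_, hc', inv_inv _⟩

theorem exca : EXCAStm := by
  classical
  intro e l he hR L _ _ Γ hΓ
  obtain ⟨R, hRfin, hRat⟩ := hR L Γ hΓ
  have he0 : e ≠ 0 := by rintro rfl; simp at he
  let K : L → L → L := fun r s => (r ^ e - 1) / (s - 1)
  let g : L × L × L → L := fun p =>
    (K p.1 p.2.1 - 1) / ((K p.2.1 p.2.2 - 1) * K p.1 p.2.1 ^ e)
  have hG : (g '' (R ×ˢ (R ×ˢ R))).Finite := (hRfin.prod (hRfin.prod hRfin)).image g
  refine ⟨{α : L | α ^ e ∈ g '' (R ×ˢ (R ×ˢ R))} ∪ (fun r => r - 1) '' R,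
    (finite_zpow hG he0).union (hRfin.image _), ?_⟩
  intro a ha t c x y ht hc0 hx hy hne
  have hRat' := hRat a ha t c
  generalize hb : (a : L) * t ^ l = b at hx hy hRat' ⊢
  have hb0 : b ≠ 0 := by
    rw [← hb]; exact mul_ne_zero a.ne_zero (pow_ne_zero _ ht)
  set f : L → L := fa e b c with hf
  have hmap : ∀ z : L, PerA e b c z → PerA e b c (f z) := by
    rintro z ⟨n, hn, h⟩
    exact ⟨n, hn, by rw [← Function.iterate_succ_apply, Function.iterate_succ_apply', h]⟩
  have hinj : ∀ z w : L, PerA e b c z → PerA e b c w → z ≠ w → f z ≠ f w := by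
    rintro z w ⟨m, hm, h1⟩ ⟨n, hn, h2⟩ hzw h3
    apply hzw
    have h4 : f^[m * n] z = z := (Function.IsPeriodicPt.mul_const (m := m) h1 n)
    have h5 : f^[m * n] w = w := (Function.IsPeriodicPt.const_mul (m := n) h2 m)
    obtain ⟨j, hj⟩ : ∃ j, m * n = j + 1 := ⟨m * n - 1, by have := Nat.mul_pos hm hn; omega⟩
    rw [hj, Function.iterate_succ_apply] at h4 h5
    rw [← h4, ← h5, h3]
  by_cases h0 : PerA e b c 0
  · -- zero periodic
    refine ⟨c, hc0, Or.inr ?_⟩
    have hf0 : f 0 = c := by simp [hf, fa, zero_zpow e he0]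
    have hc1 : PerA e b c c := by
      have := hmap 0 h0
      rwa [hf0] at this
    have hfc : f c = b * c ^ e + c := rfl
    have hce : b * c ^ e ≠ 0 := mul_ne_zero hb0 (zpow_ne_zero _ hc0)
    have hne' : f c ≠ c := by
      rw [hfc]
      intro h
      exact hce (by linear_combination h)
    have h1 := hRat' (f c) c ht (hmap c hc1) hc1 hne' hc0
    refine ⟨_, h1, ?_⟩
    show f c / c - 1 = b * c ^ (e - 1)
    rw [hfc, zpow_sub_one₀ hc0]
    field_simp
    ring
  -- no periodic point is zero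
  have hnz : ∀ z : L, PerA e b c z → z ≠ 0 := by
    rintro z hz rfl
    exact h0 hz
  have hratio : ∀ z w : L, PerA e b c z → PerA e b c w → z ≠ w → z / w ∈ R :=
    fun z w hz hw hzw => hRat' z w ht hz hw hzw (hnz w hw)
  have hx1 := hmap x hx
  have hy1 := hmap y hy
  have hx2 := hmap _ hx1
  have hy2 := hmap _ hy1
  have hne1 := hinj x y hx hy hne
  have hne2 := hinj _ _ hx1 hy1 hne1
  have y0 := hnz y hy
  have y1 := hnz _ hy1
  have y2 := hnz _ hy2
  refine ⟨y, y0, Or.inl ?_⟩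
  -- one step
  have step : ∀ z w : L, w ≠ 0 → f w ≠ 0 → f z ≠ f w →
      f w = K (z / w) (f z / f w) * (b * w ^ e) := by
    intro z w hw hfw hne
    have h1 : f z / f w - 1 ≠ 0 := by
      rw [sub_ne_zero]
      intro h
      rw [div_eq_one_iff_eq hfw] at h
      exact hne h
    have h2 : f z - f w = b * (z ^ e - w ^ e) := by simp only [hf, fa]; ring
    have h3 : (f z / f w - 1) * f w = b * (z ^ e - w ^ e) := by
      rw [sub_mul, div_mul_cancel₀ _ hfw, one_mul, h2]
    have h4 : ((z / w) ^ e - 1) * (b * w ^ e) = b * (z ^ e - w ^ e) := by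
      rw [sub_mul, mul_left_comm, div_zpow, div_mul_cancel₀ _ (zpow_ne_zero _ hw)]
      ring
    show f w = ((z / w) ^ e - 1) / (f z / f w - 1) * (b * w ^ e)
    rw [div_mul_eq_mul_div, h4, ← h3, mul_div_cancel_left₀ _ h1]
  have s1 := step x y y0 y1 hne1
  have s2 := step (f x) (f y) y1 y2 hne2
  set k := K (x / y) (f x / f y) with hk
  set k' := K (f x / f y) (f (f x) / f (f y)) with hk'
  have e1 : c = (k - 1) * (b * y ^ e) := by
    have : f y = b * y ^ e + c := rfl
    rw [sub_mul, ← s1, this]; ring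
  have e2 : c = (k' - 1) * (b * (f y) ^ e) := by
    have : f (f y) = b * (f y) ^ e + c := rfl
    rw [sub_mul, ← s2, this]; ring
  have hk0 : k ≠ 0 := by
    intro h
    rw [h, zero_mul] at s1
    exact y1 s1
  have hk1 : k' - 1 ≠ 0 := by
    intro h
    rw [h, zero_mul] at e2
    exact hc0 e2
  show (b * y ^ (e - 1)) ^ e ∈ g '' (R ×ˢ (R ×ˢ R))
  refine ⟨(x / y, f x / f y, f (f x) / f (f y)), ⟨hratio x y hx hy hne,
    hratio _ _ hx1 hy1 hne1, hratio _ _ hx2 hy2 hne2⟩, ?_⟩
  show (k - 1) / ((k' - 1) * k ^ e) = (b * y ^ (e - 1)) ^ e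
  rw [div_eq_iff (mul_ne_zero hk1 (zpow_ne_zero _ hk0))]
  have hby : b * y ^ e ≠ 0 := mul_ne_zero hb0 (zpow_ne_zero _ y0)
  apply mul_right_cancel₀ hby
  have e3 : y ^ (e - 1) * y = y ^ e := by
    rw [zpow_sub_one₀ y0]
    field_simp
  calc (k - 1) * (b * y ^ e) = (k' - 1) * (b * (k * (b * y ^ e)) ^ e) := by rw [← e1, ← s1, ← e2]
    _ = (k' - 1) * (b * (k * (b * (y ^ (e - 1) * y))) ^ e) := by rw [e3]
    _ = (k' - 1) * (b * (k ^ e * ((b * y ^ (e - 1)) ^ e * y ^ e))) := by
        rw [← mul_assoc b, mul_zpow k, mul_zpow (b * y ^ (e - 1))]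
    _ = (b * y ^ (e - 1)) ^ e * ((k' - 1) * k ^ e) * (b * y ^ e) := by ring

end Pool.Agent.W2helper49.BT3
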